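import Pool.Agent.Lib.MP_e1f7e2_al.SU.Iface2

set_option autoImplicit false

open MvPolynomial

namespace Pool.Agent.Lib.MP_e1f7e2_al.SU.H49

open Pool.Agent.Lib.MP_e1f7e2_al.SU

variable {K : Type*} [Field K]

lemma fse_rename (p : MvPolynomial (Fin 2) K) :
    finSuccEquiv K 2 (rename Fin.succ p) = Polynomial.C p := by
  induction p using MvPolynomial.induction_on with
  | C a => simp [finSuccEquiv_apply]
  | add p q hp hq => rw [map_add, map_add, hp, hq, Polynomial.C_add]
  | mul_X p i hp =>
    rw [map_mul, map_mul, hp, rename_X, finSuccEquiv_X_succ, Polynomial.C_mul]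

lemma mem_Ad_iff (H : MvPolynomial (Fin 3) K) :
    H ∈ Ad K ↔ ∃ p : MvPolynomial (Fin 2) K, rename Fin.succ p = H := by
  constructor
  · intro h
    unfold Ad at h
    induction h using Algebra.adjoin_induction with
    | mem x hx =>
      rcases hx with hx | hx
      · exact ⟨X 0, by rw [hx, rename_X]; rfl⟩
      · rw [Set.mem_singleton_iff] at hx
        exact ⟨X 1, by rw [hx, rename_X]; rfl⟩
    | algebraMap r => exact ⟨C r, by rw [rename_C]; rfl⟩
    | add x y _ _ hx hy =>
      obtain ⟨p, rfl⟩ := hx
      obtain ⟨q, rfl⟩ := hy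
      exact ⟨p + q, map_add _ _ _⟩
    | mul x y _ _ hx hy =>
      obtain ⟨p, rfl⟩ := hx
      obtain ⟨q, rfl⟩ := hy
      exact ⟨p * q, map_mul _ _ _⟩
  · rintro ⟨p, rfl⟩
    induction p using MvPolynomial.induction_on with
    | C a =>
      rw [rename_C]
      exact (Ad K).algebraMap_mem a
    | add p q hp hq =>
      rw [map_add]
      exact (Ad K).add_mem hp hq
    | mul_X p i hp =>
      rw [map_mul, rename_X]
      refine (Ad K).mul_mem hp (Algebra.subset_adjoin ?_)
      fin_cases i
      · left; rfl
      · right; rfl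

theorem coef : CoefFacts K := by
  have mem : ∀ (j : ℕ) (H : MvPolynomial (Fin 3) K), co j H ∈ Ad K := fun j H =>
    (mem_Ad_iff _).2 ⟨_, rfl⟩
  have rep : ∀ H : MvPolynomial (Fin 3) K,
      H = ∑ j ∈ Finset.range (dX H + 1), co j H * X 0 ^ j := by
    intro H
    apply (finSuccEquiv K 2).injective
    rw [map_sum]
    conv_lhs => rw [(finSuccEquiv K 2 H).as_sum_range_C_mul_X_pow]
    unfold dX
    apply Finset.sum_congr rfl
    intro j _
    rw [map_mul, map_pow, finSuccEquiv_X_zero]
    unfold co
    rw [fse_rename]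
  refine ⟨mem, rep, ?_, ?_, ?_, ?_, ?_, ?_⟩
  · intro j c H H'
    have hc : finSuccEquiv K 2 (C c) = Polynomial.C (C c) := by
      have := fse_rename (K := K) (C c)
      rwa [rename_C] at this
    unfold co
    rw [map_add, map_mul, hc, Polynomial.coeff_add, Polynomial.coeff_C_mul, map_add, map_mul,
      rename_C]
  · intro H hH
    unfold lcX co dX
    intro h
    have h1 : (finSuccEquiv K 2 H).coeff (finSuccEquiv K 2 H).natDegree = 0 :=
      rename_injective _ (Fin.succ_injective 2) (by rw [h, map_zero])
    have h2 : finSuccEquiv K 2 H = 0 := Polynomial.leadingCoeff_eq_zero.1 h1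
    exact hH ((finSuccEquiv K 2).injective (by rw [h2, map_zero]))
  · intro H H' hH hH'
    unfold dX
    rw [map_mul]
    exact Polynomial.natDegree_mul
      (fun h => hH ((finSuccEquiv K 2).injective (by rw [h, map_zero])))
      (fun h => hH' ((finSuccEquiv K 2).injective (by rw [h, map_zero])))
  · intro H H' hH hH'
    change rename Fin.succ (finSuccEquiv K 2 (H * H')).leadingCoeff =
      rename Fin.succ (finSuccEquiv K 2 H).leadingCoeff *
        rename Fin.succ (finSuccEquiv K 2 H').leadingCoeff
    rw [map_mul, Polynomial.leadingCoeff_mul, map_mul]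
  · intro H
    constructor
    · intro h
      rw [rep H, h]
      simp only [zero_add, Finset.range_one, Finset.sum_singleton, pow_zero, mul_one]
      exact mem 0 H
    · intro h
      obtain ⟨p, rfl⟩ := (mem_Ad_iff H).1 h
      unfold dX
      rw [fse_rename, Polynomial.natDegree_C]
  · intro j H h
    unfold co
    rw [Polynomial.coeff_eq_zero_of_natDegree_lt h, map_zero]

end Pool.Agent.Lib.MP_e1f7e2_al.SU.H49
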