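import Pool.Agent.Lib.MP_e1f7e2_al.SU.Iface2

set_option autoImplicit false

open MvPolynomial

namespace Pool.Agent.Lib.MP_e1f7e2_al.SU.H49

open Pool.Agent.Lib.MP_e1f7e2_al.SU

lemma irr_six : Irrational (√(6 : ℝ)) := by
  have h : ¬ IsSquare (6 : ℕ) := by
    rintro ⟨r, hr⟩
    have : r ≤ 2 := by nlinarith
    interval_cases r <;> omega
  have := (irrational_sqrt_natCast_iff (n := 6)).2 h
  exact_mod_cast this

lemma indep (p q r : ℤ) (h : (p : ℝ) + q * √2 + r * √3 = 0) : p = 0 ∧ q = 0 ∧ r = 0 := by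
  have h2 : √(2 : ℝ) * √2 = 2 := Real.mul_self_sqrt (by norm_num)
  have h3 : √(3 : ℝ) * √3 = 3 := Real.mul_self_sqrt (by norm_num)
  have h6 : √(2 : ℝ) * √3 = √6 := by
    rw [← Real.sqrt_mul (by norm_num)]
    norm_num
  have e : (p : ℝ) ^ 2 + 2 * q ^ 2 + 2 * p * q * √2 = 3 * r ^ 2 := by
    have : ((p : ℝ) + q * √2) ^ 2 = (r * √3) ^ 2 := by
      have h' : (p : ℝ) + q * √2 = -(r * √3) := by linarith
      rw [h']
      ring
    nlinarith [this, h2, h3]
  have i2 : Irrational (√(2 : ℝ)) := irrational_sqrt_two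
  have i3 : Irrational (√(3 : ℝ)) := by
    have := Nat.Prime.irrational_sqrt (show Nat.Prime 3 by norm_num)
    exact_mod_cast this
  have i6 := irr_six
  have hpq : p * q = 0 := by
    by_contra hne
    apply i2
    refine ⟨(3 * r ^ 2 - p ^ 2 - 2 * q ^ 2 : ℤ) / (2 * (p * q : ℤ) : ℚ), ?_⟩
    have hne' : ((p : ℝ) * q) ≠ 0 := by exact_mod_cast hne
    push_cast
    rw [div_eq_iff (by simpa using hne')]
    linarith
  rcases mul_eq_zero.1 hpq with hp | hq
  · subst hp
    have hr : r = 0 := by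
      by_contra hr
      apply i6
      refine ⟨(-2 * q : ℤ) / (r : ℚ), ?_⟩
      have hr' : (r : ℝ) ≠ 0 := by exact_mod_cast hr
      push_cast
      rw [div_eq_iff hr', ← h6]
      have : √2 * ((0 : ℤ) + (q : ℝ) * √2 + r * √3) = 0 := by rw [h]; ring
      push_cast at this
      linear_combination (q : ℝ) * h2 - this
    subst hr
    have hq : q = 0 := by
      have h' : (q : ℝ) * √2 = 0 := by simpa using h
      rcases mul_eq_zero.1 h' with h' | h'
      · exact_mod_cast h'
      · exact absurd h' (by positivity)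
    exact ⟨rfl, hq, rfl⟩
  · subst hq
    have hr : r = 0 := by
      by_contra hr
      apply i3
      refine ⟨(-p : ℤ) / (r : ℚ), ?_⟩
      have hr' : (r : ℝ) ≠ 0 := by exact_mod_cast hr
      push_cast
      rw [div_eq_iff hr']
      have : (p : ℝ) + ((0 : ℤ) : ℝ) * √2 + r * √3 = 0 := h
      push_cast at this
      linarith
    subst hr
    have hp : p = 0 := by
      have h' : (p : ℝ) = 0 := by simpa using h
      exact_mod_cast h'
    exact ⟨hp, rfl, rfl⟩

theorem genw : GenwStatement := by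
  refine ⟨![1, √2, √3], ?_, ?_⟩
  · intro i
    fin_cases i <;> simp
  · intro α β h
    unfold wt at h
    rw [Fin.sum_univ_three, Fin.sum_univ_three] at h
    simp only [Matrix.cons_val_zero, Matrix.cons_val_one, Matrix.cons_val] at h
    have := indep ((α 0 : ℤ) - β 0) ((α 1 : ℤ) - β 1) ((α 2 : ℤ) - β 2) (by
      push_cast
      linarith)
    ext i
    fin_cases i
    · change α 0 = β 0
      omega
    · change α 1 = β 1
      omega
    · change α 2 = β 2
      omega

end Pool.Agent.Lib.MP_e1f7e2_al.SU.H49
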