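import Pool.Agent.Lib.MP_e1f7e2_al.SU.Iface2

set_option autoImplicit false

open MvPolynomial

namespace Pool.Agent.Lib.MP_e1f7e2_al.SU.H49

open Pool.Agent.Lib.MP_e1f7e2_al.SU

lemma fix_of_mem {K : Type*} [Field K]
    (φ : MvPolynomial (Fin 3) K →ₐ[K] MvPolynomial (Fin 3) K)
    (h1 : φ (X 1) = X 1) (h2 : φ (X 2) = X 2) (g : MvPolynomial (Fin 3) K) (hg : g ∈ Ad K) :
    φ g = g := by
  unfold Ad at hg
  induction hg using Algebra.adjoin_induction with
  | mem x hx =>
    rcases hx with hx | hx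
    · rw [hx, h1]
    · rw [Set.mem_singleton_iff] at hx
      rw [hx, h2]
  | algebraMap r => exact φ.commutes r
  | add x y _ _ hx hy => rw [map_add, hx, hy]
  | mul x y _ _ hx hy => rw [map_mul, hx, hy]

theorem phi {K : Type*} [Field K] : PhiStatement K := by
  intro g hg
  let a : MvPolynomial (Fin 3) K →ₐ[K] MvPolynomial (Fin 3) K := aeval ![X 0 + g, X 1, X 2]
  let b : MvPolynomial (Fin 3) K →ₐ[K] MvPolynomial (Fin 3) K := aeval ![X 0 - g, X 1, X 2]
  have a0 : a (X 0) = X 0 + g := by simp [a]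
  have a1 : a (X 1) = X 1 := by simp [a]
  have a2 : a (X 2) = X 2 := by simp [a]
  have b0 : b (X 0) = X 0 - g := by simp [b]
  have b1 : b (X 1) = X 1 := by simp [b]
  have b2 : b (X 2) = X 2 := by simp [b]
  have ag : a g = g := fix_of_mem a a1 a2 g hg
  have bg : b g = g := fix_of_mem b b1 b2 g hg
  have hab : a.comp b = AlgHom.id K _ := by
    apply MvPolynomial.algHom_ext
    intro i
    fin_cases i
    · change a (b (X 0)) = X 0
      rw [b0, map_sub, a0, ag]
      ring
    · change a (b (X 1)) = X 1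
      rw [b1, a1]
    · change a (b (X 2)) = X 2
      rw [b2, a2]
  have hba : b.comp a = AlgHom.id K _ := by
    apply MvPolynomial.algHom_ext
    intro i
    fin_cases i
    · change b (a (X 0)) = X 0
      rw [a0, map_add, b0, bg]
      ring
    · change b (a (X 1)) = X 1
      rw [a1, b1]
    · change b (a (X 2)) = X 2
      rw [a2, b2]
  refine ⟨AlgEquiv.ofAlgHom a b hab hba, ⟨a0, a1, a2⟩, 0, 1, g, one_ne_zero, ?_, ?_, ?_⟩
  · have hle : Ad K ≤ Algebra.adjoin K ((X : Fin 3 → MvPolynomial (Fin 3) K) '' {j | j ≠ 0}) := by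
      unfold Ad
      apply Algebra.adjoin_mono
      intro x hx
      rcases hx with hx | hx
      · exact ⟨1, by simp, hx.symm⟩
      · rw [Set.mem_singleton_iff] at hx
        exact ⟨2, by simp, hx.symm⟩
    exact hle hg
  · change a (X 0) = (1 : K) • X 0 + g
    rw [a0, one_smul]
  · intro j hj
    fin_cases j
    · exact absurd rfl hj
    · exact a1
    · exact a2

end Pool.Agent.Lib.MP_e1f7e2_al.SU.H49
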